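import Mathlib
import Pool.Agent.H65.GolD
import Pool.Agent.H65.GolD2
import Pool.Agent.H65.GolP5
import Pool.Agent.H65.GolP7

set_option autoImplicit false

namespace Pool.Agent.Results.MP_6756f0_al.No

open Pool.Agent.H65.GolD

theorem result :
    ∃ (A₁ A₂ : Set (Fin 4 →₀ ℕ)) (I₁ I₂ : Ideal (MvPolynomial (Fin 4) ℚ)),
      I₁ = Ideal.span ((fun s => MvPolynomial.monomial s (1 : ℚ)) '' A₁) ∧
      I₂ = Ideal.span ((fun s => MvPolynomial.monomial s (1 : ℚ)) '' A₂) ∧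
      I₁ ≤ MvPolynomial.idealOfVars (Fin 4) ℚ ^ 2 ∧
      I₂ ≤ MvPolynomial.idealOfVars (Fin 4) ℚ ^ 2 ∧
      IsGolod I₁ ∧ IsGolod I₂ ∧ ¬ IsGolod (I₁ * I₂) ∧ HomProd (I₁ * I₂) :=
  ⟨{m | Pool.Agent.H65.GolP.D 2 m}, {m | Pool.Agent.H65.GolP.P2 m},
    Pool.Agent.H65.GolP.U (Pool.Agent.H65.GolP.D 2), Pool.Agent.H65.GolP.U Pool.Agent.H65.GolP.P2,
    rfl, rfl, Pool.Agent.H65.GolP.le_sq fun _ h => h,
    Pool.Agent.H65.GolP.le_sq Pool.Agent.H65.GolP.P2_D, Pool.Agent.H65.GolP.golod1,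
    Pool.Agent.H65.GolP.golod2, Pool.Agent.H65.GolP.not_golod12, Pool.Agent.H65.GolP.homProd12⟩

end Pool.Agent.Results.MP_6756f0_al.No
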